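import Pool.Agent.H4.NS.Key

set_option autoImplicit false

/-!
MP_52f71e_al: helper98's (0): the point `s = x \ cx`.
-/

namespace ALoop

open Equiv

variable {Q : Type*} {G : Subgroup (Perm Q)} {L : Q → Perm Q} {J : Perm Q} {e : Q}

namespace AL

theorem s_zero (h : AL G L J e) {x : Q} (hJx : J x = x) (hxe : x ≠ e) {c c' : Perm Q}
    (hc : c ∈ Inn G e) {n : ℕ} (hn : Odd n) (hcn : c ^ n = 1)
    (hzc : D L J x * c * D L J x = c⁻¹) (hc' : c' = (L x)⁻¹ * c * L x) :
    D L J (c' e) = c' * c' * J ∧ c (c' e) = c' e ∧ L x (c' e) = c x ∧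
    (∀ g, g = (L (c x))⁻¹ * L x * L (c' e) → g ∈ Inn G e ∧ g x = x ∧ g * c = c * g ∧
      g * c' = c' * g ∧ g * L x = L x * g ∧ g * D L J x = D L J x * g ∧
      L (c' e) = c' * c⁻¹ * g ∧ J * L (J (c' e)) * J = c' * c * g) := by
  obtain ⟨k1, k2, k3⟩ := h.key_comm hJx hc hn hcn hzc
  rw [← hc'] at k1 k2 k3
  have hLG := h.memL x
  have hc'G : c' ∈ G := by
    rw [hc']; exact G.mul_mem (G.mul_mem (G.inv_mem hLG) hc.1) hLG
  have hJJ := h.JJ1
  have hcJ : c * J = J * c := h.comJ c hc.1 hc.2
  have hDD := h.D_sq x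
  have hDi : (D L J x)⁻¹ = D L J x := inv_eq_of_mul_eq_one_left hDD
  have hDxx := h.D_self x
  have hDJ := h.Dx_J hJx
  have hzG := h.Z_mem (h.zx_mem hJx hxe)
  have hze := h.zx_e hJx hxe
  have hDe : D L J x e = e := by
    have h1 : D L J x (J e) = e := hze
    rwa [h.Je] at h1
  have hzx : (D L J x * J) x = x := by
    show D L J x (J x) = x
    rw [hJx, hDxx]
  obtain ⟨s, hs⟩ : ∃ s, s = c' e := ⟨_, rfl⟩
  rw [← hs]
  have hDs : D L J s = c' * c' * J := by
    have h1 := h.D_conj hc'G e
    rw [h.D_e, ← hs] at h1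
    rw [← h1, ← k2]
    calc c' * J * (J * c' * J) = c' * (J * J) * c' * J := by group
      _ = c' * c' * J := by rw [hJJ, mul_one]
  have hcs : c s = s := by
    rw [hs]
    show (c * c') e = c' e
    rw [← k3]
    have hce : c e = e := hc.2
    show c' (c e) = c' e
    rw [hce]
  have hLxs : L x s = c x := by
    rw [hs, hc']
    show L x ((L x)⁻¹ (c (L x e))) = c x
    rw [apply_inv', h.Le]
  refine ⟨hDs, hcs, hLxs, ?_⟩
  obtain ⟨u, hu⟩ : ∃ u, u = c x := ⟨_, rfl⟩
  rw [← hu]
  have hJu : J u = u := by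
    rw [hu]
    show (J * c) x = c x
    rw [← hcJ]
    show c (J x) = c x
    rw [hJx]
  have hLu : L u = c * L x * c⁻¹ := by rw [hu]; exact (h.equi c hc.1 hc.2 x).symm
  -- `s x = c⁻¹ x`
  have hDxs : D L J x s = s := by
    rw [hs]
    show (D L J x * c') e = c' e
    rw [← k1]
    show c' (D L J x e) = c' e
    rw [hDe]
  have hzs : (D L J x * J) (J s) = s := by
    show D L J x (J (J s)) = s
    rw [h.JJ, hDxs]
  have hsx : L s x = c⁻¹ x := by
    have h1 : L (J s) x = u := by
      have h2 := h.aaip x s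
      rw [hLxs, hJx, ← hu, hJu] at h2
      exact h2.symm
    have h4 := h.aut hzG hze (J s) x
    rw [hzs, hzx, h1, hu] at h4
    rw [← h4, ← hzc]
    show D L J x (J (c x)) = D L J x (c (D L J x x))
    rw [← hu, hJu, hDxx, hu]
  intro k hk
  have hkG : k ∈ G := by
    rw [hk]
    exact G.mul_mem (G.mul_mem (G.inv_mem (h.memL u)) hLG) (h.memL s)
  have hke : k e = e := by
    rw [hk]
    show (L u)⁻¹ (L x (L s e)) = e
    rw [h.Le, hLxs, ← hu, Perm.inv_eq_iff_eq, h.Le]
  have hkx : k x = x := by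
    rw [hk]
    show (L u)⁻¹ (L x (L s x)) = x
    rw [Perm.inv_eq_iff_eq]
    have h1 := h.R_apply s x
    have h2 := h.R_apply u x
    rw [hJx] at h1 h2
    rw [← h1, ← h2]
    show (L x * (J * L x * J)) s = (J * L x * J) u
    rw [h.comLR]
    show (J * L x * J) (L x s) = (J * L x * J) u
    rw [hLxs, hu]
  have hcsL : c * L s = L s * c := h.comL hc.1 hc.2 hcs
  have hsu : L s u = x := by
    rw [hu]
    show (L s * c) x = x
    rw [← hcsL]
    show c (L s x) = x
    rw [hsx, apply_inv']
  have hku : k u = u := by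
    rw [hk]
    show (L u)⁻¹ (L x (L s u)) = u
    rw [Perm.inv_eq_iff_eq, hsu, h.LxLx hJx, h.LxLx hJu]
  have hkL : k * L x = L x * k := h.comL hkG hke hkx
  have hkD : k * D L J x = D L J x * k := (h.D_cent hkG x).2 hkx
  have hkDu : k * D L J u = D L J u * k := (h.D_cent hkG u).2 hku
  have hDu : D L J u = c * c * D L J x := by
    rw [hu, ← h.D_conj hc.1, ← hzc]
    calc c * D L J x * (D L J x * c * D L J x) = c * (D L J x * D L J x) * c * D L J x := by group
      _ = c * c * D L J x := by rw [hDD, mul_one]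
  have hkcc : c * c * k = k * (c * c) := by
    have h1 : k * (c * c * D L J x) = (c * c * D L J x) * k := by rw [← hDu]; exact hkDu
    have h2 : c * c = D L J u * D L J x := by
      rw [hDu]
      calc c * c = c * c * (D L J x * D L J x) := by rw [hDD, mul_one]
        _ = c * c * D L J x * D L J x := by group
    rw [h2]
    calc D L J u * D L J x * k = D L J u * (k * D L J x) := by rw [hkD]; group
      _ = (k * D L J u) * D L J x := by rw [hkDu]; group
      _ = k * (D L J u * D L J x) := by group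
  have hkc : k * c = c * k := (comm_of_sq hn hcn hkcc).symm
  have hkc' : k * c' = c' * k := by
    have hkLi : k * (L x)⁻¹ = (L x)⁻¹ * k := by
      calc k * (L x)⁻¹ = (L x)⁻¹ * (L x * k) * (L x)⁻¹ := by group
        _ = (L x)⁻¹ * (k * L x) * (L x)⁻¹ := by rw [hkL]
        _ = (L x)⁻¹ * k := by group
    rw [hc']
    calc k * ((L x)⁻¹ * c * L x) = (k * (L x)⁻¹) * c * L x := by group
      _ = (L x)⁻¹ * (k * c) * L x := by rw [hkLi]; group
      _ = (L x)⁻¹ * c * (k * L x) := by rw [hkc]; group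
      _ = (L x)⁻¹ * c * L x * k := by rw [hkL]; group
  have hLs : L s = c' * c⁻¹ * k := by
    rw [hk, hLu, hc']; group
  refine ⟨⟨hkG, hke⟩, hkx, hkc, hkc', hkL, hkD, hLs, ?_⟩
  have hJs : J s = (D L J x * J) s := by
    have h1 : (D L J x * J) (J s) = s := hzs
    have hz2 : (D L J x * J) * (D L J x * J) = 1 := h.Z_sq (h.zx_mem hJx hxe)
    calc J s = ((D L J x * J) * (D L J x * J)) (J s) := by rw [hz2]; rfl
      _ = (D L J x * J) ((D L J x * J) (J s)) := rfl
      _ = (D L J x * J) s := by rw [h1]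
  rw [hJs, ← h.equi _ hzG hze, hLs, mul_inv_rev, hDi, h.Jinv]
  calc J * (D L J x * J * (c' * c⁻¹ * k) * (J * D L J x)) * J
      = (J * (D L J x * J)) * c' * c⁻¹ * k * (J * D L J x * J) := by group
    _ = D L J x * c' * c⁻¹ * k * D L J x := by
        have h1 : J * D L J x * J = D L J x := by rw [← hDJ, mul_assoc, hJJ, mul_one]
        have h2 : J * (D L J x * J) = D L J x := by rw [← mul_assoc]; exact h1
        rw [h2, h1]
    _ = c' * (D L J x * c⁻¹) * (k * D L J x) := by
        calc D L J x * c' * c⁻¹ * k * D L J x = (D L J x * c') * c⁻¹ * k * D L J x := by group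
          _ = (c' * D L J x) * c⁻¹ * k * D L J x := by rw [k1]
          _ = c' * (D L J x * c⁻¹) * (k * D L J x) := by group
    _ = c' * (D L J x * c⁻¹ * D L J x) * k := by rw [hkD]; group
    _ = c' * c * k := by
        have h1 : D L J x * c⁻¹ * D L J x = c := by
          rw [← hzc]
          calc D L J x * (D L J x * c * D L J x) * D L J x
              = (D L J x * D L J x) * c * (D L J x * D L J x) := by group
            _ = c := by rw [hDD, one_mul, mul_one]
        rw [h1]

end AL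

end ALoop
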